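import Pool.Agent.Y659.TraceIneq.Mat

/-!
MP_ebd556_mp, Q1 (full positive answer, with a constant that does not depend on `n` either):
for positive semidefinite `A 0, …, A (n-1)` one has `L ≥ 2 R`.

Proof. Order all eigenvectors of all the `A j` by decreasing eigenvalue and test them one after the
other. By a sequential (union bound) estimate, an eigenvector `x` of `A j` loses at most twice the
sum of its squared overlaps with the earlier eigenvectors of the other operators, so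
`-L ≤ 2 ∑_{j<k} ∑ min(a, b) |⟨x, y⟩|²` (sum over eigenvectors `x`, `y` of `A j`, `A k` with
eigenvalues `a`, `b`), and `∑ min(a, b) |⟨x, y⟩|² ≤ Tr(A j + A k) - ‖A j - A k‖₁`
(Nussbaum and Szkola).
-/

set_option autoImplicit false

open Finset Matrix
open scoped ComplexOrder MatrixOrder

namespace Pool.Agent.Results.MP_ebd556_mp.UniversalConstant

/-- trace norm `‖X‖₁ = Tr √(Xᴴ X)` -/
noncomputable def traceNorm {d : ℕ} (X : Matrix (Fin d) (Fin d) ℂ) : ℝ :=
  (CFC.sqrt (Xᴴ * X)).trace.re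

/-- `L = Tr √(∑ A_j²) - ∑ Tr A_j` -/
noncomputable def L {n d : ℕ} (A : Fin n → Matrix (Fin d) (Fin d) ℂ) : ℝ :=
  (CFC.sqrt (∑ j, A j ^ 2)).trace.re - ∑ j, (A j).trace.re

/-- `R = ∑_{j < k} (‖A_j - A_k‖₁ - Tr (A_j + A_k))` -/
noncomputable def R {n d : ℕ} (A : Fin n → Matrix (Fin d) (Fin d) ℂ) : ℝ :=
  ∑ j, ∑ k ∈ Ioi j, (traceNorm (A j - A k) - (A j + A k).trace.re)

/-- For all `n`, `d` and all positive semidefinite `d × d` matrices `A 0, …, A (n-1)`:
`L ≥ 2 R`. -/
theorem result (n d : ℕ) (A : Fin n → Matrix (Fin d) (Fin d) ℂ) (hA : ∀ j, (A j).PosSemidef) :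
    2 * R A ≤ L A := by
  obtain ⟨Y, hY, hcore⟩ := Pool.Agent.Y659.TraceIneq.core
    (fun m => (hA m).1.eigenvectorBasis) (fun m i => (hA m).1.eigenvalues i)
    (fun m i => (hA m).eigenvalues_nonneg i)
  have hS : (0 : Matrix (Fin d) (Fin d) ℂ) ≤ ∑ j, A j ^ 2 := by
    refine sum_nonneg fun j _ => ?_
    have h := posSemidef_conjTranspose_mul_self (A j)
    rw [(hA j).1.eq, ← pow_two] at h
    exact h.nonneg
  have hT := CFC.sqrt_nonneg (∑ j, A j ^ 2)
  have hTT := CFC.sqrt_mul_sqrt_self (∑ j, A j ^ 2) hS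
  have hrow := Pool.Agent.Y659.TraceIneq.row A (fun m => (hA m).1)
    (Matrix.nonneg_iff_posSemidef.1 hT) (by rw [hTT]; simp only [pow_two]) Y hY
  have htr : ∀ m, (A m).trace.re = ∑ i, (hA m).1.eigenvalues i := by
    intro m
    rw [(hA m).1.trace_eq_sum_eigenvalues]
    simp
  have h1 : -L A ≤ 2 * ∑ m, ∑ m' ∈ Ioi m, ∑ i, ∑ j,
      min ((hA m).1.eigenvalues i) ((hA m').1.eigenvalues j) *
        ‖inner ℂ ((hA m).1.eigenvectorBasis i) ((hA m').1.eigenvectorBasis j)‖ ^ 2 := by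
    refine le_trans ?_ hcore
    simp only [mul_sub, mul_one, sum_sub_distrib]
    unfold L
    rw [sum_congr rfl fun m _ => htr m]
    linarith
  have h2 : ∑ m, ∑ m' ∈ Ioi m, ∑ i, ∑ j,
      min ((hA m).1.eigenvalues i) ((hA m').1.eigenvalues j) *
        ‖inner ℂ ((hA m).1.eigenvectorBasis i) ((hA m').1.eigenvectorBasis j)‖ ^ 2 ≤ -R A := by
    unfold R
    rw [← sum_neg_distrib]
    refine sum_le_sum fun m _ => ?_
    rw [← sum_neg_distrib]
    refine sum_le_sum fun m' _ => ?_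
    have h0 := posSemidef_conjTranspose_mul_self (A m - A m')
    have := Pool.Agent.Y659.TraceIneq.pair (hA m) (hA m')
      (Matrix.nonneg_iff_posSemidef.1 (CFC.sqrt_nonneg ((A m - A m')ᴴ * (A m - A m'))))
      (CFC.sqrt_mul_sqrt_self _ h0.nonneg)
    unfold traceNorm
    linarith
  linarith

end Pool.Agent.Results.MP_ebd556_mp.UniversalConstant
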